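import Mathlib

set_option autoImplicit false

open Filter Topology Finset

namespace Pool.Agent.Results.MP_abdce6_an.TBasisIsGammaBasis

variable {𝕜 : Type*} [RCLike 𝕜] {E : Type*} [NormedAddCommGroup E] [NormedSpace 𝕜 E]

/-- A consistent infinite scalar matrix (indices start at `0`): (i) uniformly bounded absolute row
sums, (ii) null columns, (iii) row sums tending to `1`. -/
structure Consistent (T : ℕ → ℕ → 𝕜) : Prop where
  rows : ∃ C : ℝ, ∀ n, Summable (fun m => ‖T n m‖) ∧ ∑' m, ‖T n m‖ ≤ C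
  cols : ∀ m, Tendsto (fun n => T n m) atTop (𝓝 0)
  sums : Tendsto (fun n => ∑' m, T n m) atTop (𝓝 1)

/-- `partialSum x α j = ∑_{i ≤ j} α_i x_i`. -/
def partialSum (x : ℕ → E) (α : ℕ → 𝕜) (j : ℕ) : E := ∑ i ∈ range (j + 1), α i • x i

/-- The scalar sequence `α` expands `y` with respect to `x` and the matrix `T`: each series
`σ_n = ∑_j t_{nj} s_j` converges in norm, and `σ_n → y`. -/
def IsTExpansion (T : ℕ → ℕ → 𝕜) (x : ℕ → E) (α : ℕ → 𝕜) (y : E) : Prop :=
  ∃ σ : ℕ → E,
    (∀ n, Tendsto (fun N => ∑ j ∈ range N, T n j • partialSum x α j) atTop (𝓝 (σ n))) ∧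
    Tendsto σ atTop (𝓝 y)

/-- `x` is a `T`-basis of `E`. -/
def IsTBasis (T : ℕ → ℕ → 𝕜) (x : ℕ → E) : Prop := ∀ y : E, ∃! α : ℕ → 𝕜, IsTExpansion T x α y

/-- `(x_n), (f_n)` is an M-basis. -/
structure IsMBasis (x : ℕ → E) (f : ℕ → (E →L[𝕜] 𝕜)) : Prop where
  biorth : ∀ i j, f i (x j) = if i = j then 1 else 0
  dense : Dense (Submodule.span 𝕜 (Set.range x) : Set E)
  total : ∀ y, (∀ n, f n y = 0) → y = 0

/-- The M-basis `(x_n), (f_n)` is a γ-basis with respect to the matrix `lam`. -/
structure IsGammaBasisWith (lam : ℕ → ℕ → 𝕜) (x : ℕ → E) (f : ℕ → (E →L[𝕜] 𝕜)) : Prop where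
  mbasis : IsMBasis x f
  tendsto_one : ∀ i, Tendsto (fun n => lam n i) atTop (𝓝 1)
  variation : ∃ C : ℝ, ∀ n, Summable (fun i => ‖lam n i - lam n (i + 1)‖) ∧
    ∑' i, ‖lam n i - lam n (i + 1)‖ ≤ C
  summing : ∀ y : E, ∃ τ : ℕ → E,
    (∀ n, Tendsto (fun N => ∑ i ∈ range N, (lam n i * f i y) • x i) atTop (𝓝 (τ n))) ∧
    Tendsto τ atTop (𝓝 y)

/-- Sanity check: the identity matrix is consistent. -/
lemma consistent_identity : Consistent (fun n m : ℕ => if m = n then (1 : 𝕜) else 0) := by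
  have e : ∀ n : ℕ, (fun m : ℕ => ‖(if m = n then (1 : 𝕜) else 0)‖) =
      fun m => if m = n then (1 : ℝ) else 0 := fun n => by
    ext m; split_ifs <;> simp
  refine ⟨⟨1, fun n => ?_⟩, fun m => ?_, ?_⟩
  · rw [e]
    exact ⟨(hasSum_ite_eq n (1 : ℝ)).summable, (hasSum_ite_eq n (1 : ℝ)).tsum_eq.le⟩
  · refine tendsto_const_nhds.congr' ?_
    filter_upwards [eventually_gt_atTop m] with n hn
    rw [if_neg (by omega)]
  · refine tendsto_const_nhds.congr (fun n => ?_)
    exact (hasSum_ite_eq n (1 : 𝕜)).tsum_eq.symm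

/-- A version of the closed graph theorem for a countable family of seminorms on a Banach space. -/
theorem seminorm_family_continuous [CompleteSpace E] (p : ℕ → E → ℝ)
    (p_nonneg : ∀ i y, 0 ≤ p i y)
    (p_add : ∀ i y z, p i (y + z) ≤ p i y + p i z)
    (p_smul : ∀ i (c : 𝕜) y, p i (c • y) = ‖c‖ * p i y)
    (p_closed : ∀ (u : ℕ → E) (y : E), Tendsto u atTop (𝓝 y) →
      (∀ i, ∀ ε > 0, ∃ K, ∀ k ≥ K, ∀ l ≥ K, p i (u k - u l) ≤ ε) →
      ∀ i, Tendsto (fun k => p i (u k - y)) atTop (𝓝 0)) :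
    ∀ i, ∃ C : ℝ, ∀ y, p i y ≤ C * ‖y‖ := by
  have p_zero : ∀ i, p i 0 = 0 := fun i => by simpa using p_smul i 0 0
  have p_neg : ∀ i y, p i (-y) = p i y := fun i y => by simpa using p_smul i (-1) y
  -- the increasing family
  set q : ℕ → E → ℝ := fun n y => ∑ i ∈ range (n + 1), p i y with hq
  have q_nonneg : ∀ n y, 0 ≤ q n y := fun n y => sum_nonneg (fun i _ => p_nonneg i y)
  have q_add : ∀ n y z, q n (y + z) ≤ q n y + q n z := fun n y z => by
    simp only [hq, ← sum_add_distrib]
    exact sum_le_sum (fun i _ => p_add i y z)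
  have q_smul : ∀ n (c : 𝕜) y, q n (c • y) = ‖c‖ * q n y := fun n c y => by
    simp only [hq, mul_sum]
    exact sum_congr rfl (fun i _ => p_smul i c y)
  have q_neg : ∀ n y, q n (-y) = q n y := fun n y => by simpa using q_smul n (-1) y
  have q_ge : ∀ n i y, i ≤ n → p i y ≤ q n y := fun n i y hi =>
    single_le_sum (f := fun i => p i y) (fun j _ => p_nonneg j y) (mem_range.mpr (by omega))
  -- Baire
  have baire : ∀ n, ∃ C : ℝ, 0 < C ∧ ∀ (y : E) (ε : ℝ), 0 < ε →
      ∃ z, q n z ≤ C * ‖y‖ ∧ ‖y - z‖ < ε := by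
    intro n
    have hU : (⋃ m : ℕ, closure {y : E | q n y ≤ m}) = Set.univ := by
      ext y
      simp only [Set.mem_iUnion, Set.mem_univ, iff_true]
      obtain ⟨m, hm⟩ := exists_nat_ge (q n y)
      exact ⟨m, subset_closure hm⟩
    obtain ⟨m, hm⟩ := nonempty_interior_of_iUnion_of_closed
      (fun m : ℕ => (isClosed_closure : IsClosed (closure {y : E | q n y ≤ m}))) hU
    obtain ⟨a, ha⟩ := hm
    obtain ⟨δ, hδ, hball⟩ := Metric.isOpen_iff.mp isOpen_interior a ha
    have hmem : ∀ z, ‖z‖ < δ → ∀ η > 0, ∃ w, q n w ≤ m ∧ ‖a + z - w‖ < η := by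
      intro z hz η hη
      have : a + z ∈ closure {y : E | q n y ≤ m} :=
        interior_subset (hball (by simpa [Metric.mem_ball, dist_eq_norm] using hz))
      obtain ⟨w, hw, hd⟩ := Metric.mem_closure_iff.mp this η hη
      exact ⟨w, hw, by simpa [dist_eq_norm] using hd⟩
    -- small vectors are approximated by vectors with `q ≤ 2 m`
    have hsmall : ∀ z, ‖z‖ < δ → ∀ η > 0, ∃ w, q n w ≤ 2 * m ∧ ‖z - w‖ < η := by
      intro z hz η hη
      obtain ⟨w1, h1, h1'⟩ := hmem z hz (η / 2) (by linarith)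
      obtain ⟨w2, h2, h2'⟩ := hmem 0 (by simpa using hδ) (η / 2) (by linarith)
      refine ⟨w1 - w2, ?_, ?_⟩
      · have := q_add n w1 (-w2)
        rw [q_neg] at this
        rw [sub_eq_add_neg]
        linarith
      · have e : z - (w1 - w2) = (a + z - w1) - (a + 0 - w2) := by abel
        rw [e]
        refine (norm_sub_le _ _).trans_lt ?_
        linarith
    refine ⟨2 * (2 * m + 1) / δ, by positivity, ?_⟩
    intro y ε hε
    rcases eq_or_ne y 0 with hy | hy
    · refine ⟨0, ?_, by simpa [hy] using hε⟩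
      have : q n 0 = 0 := by simpa using q_smul n 0 0
      rw [this]; positivity
    · have hny : 0 < ‖y‖ := norm_pos_iff.mpr hy
      set c : ℝ := δ / (2 * ‖y‖) with hc
      have hcpos : 0 < c := by positivity
      have hn : ‖((c : 𝕜)) • y‖ < δ := by
        rw [norm_smul, RCLike.norm_ofReal, abs_of_pos hcpos, hc]
        field_simp
        linarith
      obtain ⟨w, hw, hw'⟩ := hsmall _ hn (c * ε) (by positivity)
      refine ⟨((c⁻¹ : ℝ) : 𝕜) • w, ?_, ?_⟩
      · rw [q_smul, RCLike.norm_ofReal, abs_of_pos (by positivity)]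
        have h1 : c⁻¹ * q n w ≤ c⁻¹ * (2 * m + 1) := by
          apply mul_le_mul_of_nonneg_left _ (by positivity)
          linarith
        refine h1.trans (le_of_eq ?_)
        rw [hc]; field_simp
      · have e : y - ((c⁻¹ : ℝ) : 𝕜) • w = ((c⁻¹ : ℝ) : 𝕜) • (((c : 𝕜)) • y - w) := by
          rw [smul_sub, smul_smul, ← RCLike.ofReal_mul, inv_mul_cancel₀ hcpos.ne']
          simp
        rw [e, norm_smul, RCLike.norm_ofReal, abs_of_pos (by positivity)]
        calc c⁻¹ * ‖(c : 𝕜) • y - w‖ < c⁻¹ * (c * ε) :=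
              mul_lt_mul_of_pos_left hw' (by positivity)
          _ = ε := by field_simp
  choose C hCpos hC using baire
  intro n₀
  refine ⟨C n₀ + 2, fun y => ?_⟩
  rcases eq_or_ne y 0 with hy | hy
  · simp [hy, p_zero]
  have hny : 0 < ‖y‖ := norm_pos_iff.mpr hy
  -- tolerance
  set ε : ℕ → ℝ := fun k => (1 / 2) ^ k * ‖y‖ / (1 + C (n₀ + k)) with hε
  have hεpos : ∀ k, 0 < ε k := fun k => by
    have := hCpos (n₀ + k); positivity
  choose Z hZ1 hZ2 using hC
  -- residuals
  let r : ℕ → E := fun k => Nat.rec y (fun k rk => rk - Z (n₀ + k) rk (ε (k + 1)) (hεpos _)) k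
  have hr0 : r 0 = y := rfl
  have hrs : ∀ k, r (k + 1) = r k - Z (n₀ + k) (r k) (ε (k + 1)) (hεpos _) := fun k => rfl
  have hrn : ∀ k, ‖r (k + 1)‖ < ε (k + 1) := fun k => by
    rw [hrs]; exact hZ2 _ _ _ _
  set z : ℕ → E := fun k => Z (n₀ + k) (r k) (ε (k + 1)) (hεpos _) with hz
  have hz0 : q n₀ (z 0) ≤ C n₀ * ‖y‖ := by
    have := hZ1 (n₀ + 0) (r 0) (ε (0 + 1)) (hεpos _)
    exact this
  have hzk : ∀ k, q (n₀ + (k + 1)) (z (k + 1)) ≤ (1 / 2) ^ (k + 1) * ‖y‖ := by
    intro k
    have h1 := hZ1 (n₀ + (k + 1)) (r (k + 1)) (ε (k + 1 + 1)) (hεpos _)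
    have h2 := (hrn k).le
    have h3 := hCpos (n₀ + (k + 1))
    calc q (n₀ + (k + 1)) (z (k + 1)) ≤ C (n₀ + (k + 1)) * ‖r (k + 1)‖ := h1
      _ ≤ C (n₀ + (k + 1)) * ε (k + 1) := by gcongr
      _ = (C (n₀ + (k + 1)) / (1 + C (n₀ + (k + 1)))) * ((1 / 2) ^ (k + 1) * ‖y‖) := by
          rw [hε]; field_simp
      _ ≤ 1 * ((1 / 2) ^ (k + 1) * ‖y‖) := by
          gcongr
          rw [div_le_one (by linarith)]
          linarith
      _ = _ := one_mul _
  set u : ℕ → E := fun K => ∑ k ∈ range K, z k with hu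
  have hur : ∀ K, u K = y - r K := by
    intro K
    induction K with
    | zero => simp [hu, hr0]
    | succ K ih =>
      have : u (K + 1) = u K + z K := by simp [hu, sum_range_succ]
      rw [this, ih, hrs]
      simp only [hz]
      abel
  have hεto : Tendsto ε atTop (𝓝 0) := by
    have h1 : Tendsto (fun k : ℕ => ((1 : ℝ) / 2) ^ k * ‖y‖) atTop (𝓝 (0 * ‖y‖)) :=
      (tendsto_pow_atTop_nhds_zero_of_lt_one (by norm_num) (by norm_num)).mul_const _
    rw [zero_mul] at h1
    refine squeeze_zero (fun k => (hεpos k).le) (fun k => ?_) h1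
    rw [hε]
    have := hCpos (n₀ + k)
    exact div_le_self (by positivity) (by linarith)
  have hrto : Tendsto r atTop (𝓝 0) := by
    rw [← tendsto_add_atTop_iff_nat 1]
    refine squeeze_zero_norm (fun k => (hrn k).le) ?_
    exact (tendsto_add_atTop_iff_nat 1).mpr hεto
  have huto : Tendsto u atTop (𝓝 y) := by
    have : Tendsto (fun K => y - r K) atTop (𝓝 (y - 0)) := tendsto_const_nhds.sub hrto
    rw [sub_zero] at this
    exact this.congr (fun K => (hur K).symm)
  -- estimate of tails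
  have hpk : ∀ i k, i ≤ n₀ + (k + 1) → p i (z (k + 1)) ≤ (1 / 2) ^ (k + 1) * ‖y‖ :=
    fun i k hik => (q_ge _ _ _ hik).trans (hzk k)
  have htail : ∀ i K l, 1 ≤ K → i ≤ n₀ + K → p i (u (K + l) - u K) ≤ 2 * (1 / 2) ^ K * ‖y‖ - 2 * (1/2) ^ (K + l) * ‖y‖ := by
    intro i K l hK hiK
    induction l with
    | zero => simp [p_zero]
    | succ l ih =>
      have e : u (K + (l + 1)) - u K = (u (K + l) - u K) + z (K + l) := by
        have : u (K + (l + 1)) = u (K + l) + z (K + l) := by
          simp only [hu]; rw [← add_assoc, sum_range_succ]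
        rw [this]; abel
      rw [e]
      have h1 := p_add i (u (K + l) - u K) (z (K + l))
      obtain ⟨m, hm⟩ : ∃ m, K + l = m + 1 := ⟨K + l - 1, by omega⟩
      have h2 : p i (z (K + l)) ≤ (1 / 2) ^ (K + l) * ‖y‖ := by
        rw [hm]; exact hpk i m (by omega)
      have e2 : 2 * (1 / 2 : ℝ) ^ (K + (l + 1)) * ‖y‖ = (1 / 2) ^ (K + l) * ‖y‖ := by
        rw [← add_assoc, pow_succ]; ring
      rw [e2]
      nlinarith [h1, h2, ih]
  have hcauchy : ∀ i, ∀ ε' > 0, ∃ K, ∀ k ≥ K, ∀ l ≥ K, p i (u k - u l) ≤ ε' := by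
    intro i ε' hε'
    have h1 : Tendsto (fun k : ℕ => 2 * ((1 : ℝ) / 2) ^ k * ‖y‖) atTop (𝓝 (2 * 0 * ‖y‖)) :=
      ((tendsto_pow_atTop_nhds_zero_of_lt_one (by norm_num) (by norm_num)).const_mul 2).mul_const _
    rw [mul_zero, zero_mul] at h1
    obtain ⟨K₀, hK₀⟩ := (h1.eventually (gt_mem_nhds (show (0:ℝ) < ε' / 2 by linarith))).exists_forall_of_atTop
    refine ⟨K₀ + i + 1, ?_⟩
    have key : ∀ k ≥ K₀ + i + 1, p i (u k - u (K₀ + i + 1)) ≤ ε' / 2 := by
      intro k hk
      obtain ⟨l, rfl⟩ := Nat.exists_eq_add_of_le hk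
      have h2 := htail i (K₀ + i + 1) l (by omega) (by omega)
      have h3 := hK₀ (K₀ + i + 1) (by omega)
      have h4 : (0 : ℝ) ≤ 2 * (1 / 2) ^ (K₀ + i + 1 + l) * ‖y‖ := by positivity
      linarith
    intro k hk l hl
    have e : u k - u l = (u k - u (K₀ + i + 1)) + -(u l - u (K₀ + i + 1)) := by abel
    rw [e]
    refine (p_add _ _ _).trans ?_
    rw [p_neg]
    linarith [key k hk, key l hl]
  have hlim := p_closed u y huto hcauchy n₀
  have hbound : ∀ K, p n₀ (u (1 + K)) ≤ (C n₀ + 1) * ‖y‖ := by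
    intro K
    have h1 := htail n₀ 1 K le_rfl (by omega)
    have h2 : u 1 = z 0 := by simp [hu]
    have h3 : p n₀ (z 0) ≤ C n₀ * ‖y‖ := (q_ge n₀ n₀ _ le_rfl).trans hz0
    have e : u (1 + K) = (u (1 + K) - u 1) + u 1 := by abel
    rw [e]
    refine (p_add _ _ _).trans ?_
    rw [← h2] at h3
    have h4 : (0 : ℝ) ≤ 2 * (1 / 2) ^ (1 + K) * ‖y‖ := by positivity
    have h5 : 2 * (1 / 2 : ℝ) ^ 1 * ‖y‖ = ‖y‖ := by ring
    nlinarith
  -- pass to the limit
  obtain ⟨K, hK⟩ := (hlim.eventually (gt_mem_nhds hny)).exists_forall_of_atTop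
  have h1 := hK (1 + K) (by omega)
  have e : y = u (1 + K) + -(u (1 + K) - y) := by abel
  calc p n₀ y = p n₀ (u (1 + K) + -(u (1 + K) - y)) := by rw [← e]
    _ ≤ p n₀ (u (1 + K)) + p n₀ (u (1 + K) - y) := by
        refine (p_add _ _ _).trans ?_
        rw [p_neg]
    _ ≤ (C n₀ + 1) * ‖y‖ + ‖y‖ := add_le_add (hbound K) h1.le
    _ = (C n₀ + 2) * ‖y‖ := by ring

/-! ### Algebra of expansions -/

section expansions

variable {T : ℕ → ℕ → 𝕜} {x : ℕ → E}

/-- The partial sums of the `n`-th row. -/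
def rowSum (T : ℕ → ℕ → 𝕜) (x : ℕ → E) (α : ℕ → 𝕜) (n N : ℕ) : E :=
  ∑ j ∈ range N, T n j • partialSum x α j

lemma partialSum_add (α β : ℕ → 𝕜) (j : ℕ) :
    partialSum x (α + β) j = partialSum x α j + partialSum x β j := by
  simp [partialSum, add_smul, sum_add_distrib]

lemma partialSum_smul (c : 𝕜) (α : ℕ → 𝕜) (j : ℕ) :
    partialSum x (c • α) j = c • partialSum x α j := by
  simp [partialSum, smul_sum, smul_smul]

lemma rowSum_add (α β : ℕ → 𝕜) (n N : ℕ) :
    rowSum T x (α + β) n N = rowSum T x α n N + rowSum T x β n N := by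
  simp [rowSum, partialSum_add, smul_add, sum_add_distrib]

lemma rowSum_smul (c : 𝕜) (α : ℕ → 𝕜) (n N : ℕ) :
    rowSum T x (c • α) n N = c • rowSum T x α n N := by
  simp [rowSum, partialSum_smul, smul_sum, smul_comm c]

end expansions

/-- The coefficient sequence of `y`. -/
noncomputable def coef {T : ℕ → ℕ → 𝕜} {x : ℕ → E} (h : IsTBasis T x) (y : E) : ℕ → 𝕜 :=
  (h y).choose

/-- The value of the `n`-th row. -/
noncomputable def sig {T : ℕ → ℕ → 𝕜} {x : ℕ → E} (h : IsTBasis T x) (y : E) : ℕ → E :=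
  (h y).choose_spec.1.choose

section basis

variable {T : ℕ → ℕ → 𝕜} {x : ℕ → E} (h : IsTBasis T x)

include h

lemma row_tendsto (y : E) (n : ℕ) :
    Tendsto (fun N => rowSum T x (coef h y) n N) atTop (𝓝 (sig h y n)) :=
  (h y).choose_spec.1.choose_spec.1 n

lemma sig_tendsto (y : E) : Tendsto (sig h y) atTop (𝓝 y) :=
  (h y).choose_spec.1.choose_spec.2

lemma coef_unique {y : E} {α : ℕ → 𝕜} (hα : IsTExpansion T x α y) : coef h y = α :=
  ((h y).choose_spec.2 α hα).symm

lemma coef_add (y z : E) : coef h (y + z) = coef h y + coef h z := by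
  refine coef_unique h ⟨fun n => sig h y n + sig h z n, fun n => ?_, ?_⟩
  · have := (row_tendsto h y n).add (row_tendsto h z n)
    refine this.congr (fun N => ?_)
    exact (rowSum_add _ _ n N).symm
  · exact (sig_tendsto h y).add (sig_tendsto h z)

lemma coef_smul (c : 𝕜) (y : E) : coef h (c • y) = c • coef h y := by
  refine coef_unique h ⟨fun n => c • sig h y n, fun n => ?_, ?_⟩
  · have := (row_tendsto h y n).const_smul c
    refine this.congr (fun N => ?_)
    exact (rowSum_smul _ _ n N).symm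
  · exact (sig_tendsto h y).const_smul c

lemma sig_add (y z : E) (n : ℕ) : sig h (y + z) n = sig h y n + sig h z n := by
  refine tendsto_nhds_unique (row_tendsto h (y + z) n) ?_
  refine ((row_tendsto h y n).add (row_tendsto h z n)).congr (fun N => ?_)
  rw [coef_add, rowSum_add]

lemma sig_smul (c : 𝕜) (y : E) (n : ℕ) : sig h (c • y) n = c • sig h y n := by
  refine tendsto_nhds_unique (row_tendsto h (c • y) n) ?_
  refine ((row_tendsto h y n).const_smul c).congr (fun N => ?_)
  rw [coef_smul, rowSum_smul]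

lemma row_bdd (y : E) (n : ℕ) : BddAbove (Set.range (fun N => ‖rowSum T x (coef h y) n N‖)) := by
  obtain ⟨M, hM⟩ := (row_tendsto h y n).norm.bddAbove_range
  exact ⟨M, hM⟩

lemma sig_bdd (y : E) : BddAbove (Set.range (fun n => ‖sig h y n‖)) :=
  (sig_tendsto h y).norm.bddAbove_range

/-- The seminorms used in the closed graph argument. -/
noncomputable def semi (i : ℕ) (y : E) : ℝ :=
  ‖coef h y i‖ + (⨆ N, ‖rowSum T x (coef h y) i N‖) + ⨆ n, ‖sig h y n‖

lemma semi_nonneg (i : ℕ) (y : E) : 0 ≤ semi h i y := by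
  unfold semi
  have h1 := Real.iSup_nonneg (f := fun N => ‖rowSum T x (coef h y) i N‖) (fun N => norm_nonneg _)
  have h2 := Real.iSup_nonneg (f := fun n => ‖sig h y n‖) (fun N => norm_nonneg _)
  have := norm_nonneg (coef h y i)
  linarith

lemma coef_le_semi (i : ℕ) (y : E) : ‖coef h y i‖ ≤ semi h i y := by
  unfold semi
  have h1 := Real.iSup_nonneg (f := fun N => ‖rowSum T x (coef h y) i N‖) (fun N => norm_nonneg _)
  have h2 := Real.iSup_nonneg (f := fun n => ‖sig h y n‖) (fun N => norm_nonneg _)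
  linarith

lemma row_le_semi (i N : ℕ) (y : E) : ‖rowSum T x (coef h y) i N‖ ≤ semi h i y := by
  unfold semi
  have h1 := le_ciSup (row_bdd h y i) N
  have h2 := Real.iSup_nonneg (f := fun n => ‖sig h y n‖) (fun N => norm_nonneg _)
  have := norm_nonneg (coef h y i)
  linarith

lemma sig_le_semi (i n : ℕ) (y : E) : ‖sig h y n‖ ≤ semi h i y := by
  unfold semi
  have h1 := Real.iSup_nonneg (f := fun N => ‖rowSum T x (coef h y) i N‖) (fun N => norm_nonneg _)
  have h2 := le_ciSup (sig_bdd h y) n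
  have := norm_nonneg (coef h y i)
  linarith

lemma semi_le (i : ℕ) (y : E) (a b c : ℝ) (ha : ‖coef h y i‖ ≤ a)
    (hb : ∀ N, ‖rowSum T x (coef h y) i N‖ ≤ b) (hc : ∀ n, ‖sig h y n‖ ≤ c) :
    semi h i y ≤ a + b + c := by
  unfold semi
  have h1 := ciSup_le hb
  have h2 := ciSup_le hc
  linarith

lemma semi_add (i : ℕ) (y z : E) : semi h i (y + z) ≤ semi h i y + semi h i z := by
  have h1 : semi h i (y + z) ≤ (‖coef h y i‖ + ‖coef h z i‖) +
      ((⨆ N, ‖rowSum T x (coef h y) i N‖) + (⨆ N, ‖rowSum T x (coef h z) i N‖)) +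
      ((⨆ n, ‖sig h y n‖) + (⨆ n, ‖sig h z n‖)) := by
    refine semi_le h i _ _ _ _ ?_ (fun N => ?_) (fun n => ?_)
    · rw [coef_add]; exact norm_add_le _ _
    · rw [coef_add, rowSum_add]
      exact (norm_add_le _ _).trans (add_le_add (le_ciSup (row_bdd h y i) N)
        (le_ciSup (row_bdd h z i) N))
    · rw [sig_add]
      exact (norm_add_le _ _).trans (add_le_add (le_ciSup (sig_bdd h y) n)
        (le_ciSup (sig_bdd h z) n))
  refine h1.trans (le_of_eq ?_)
  unfold semi
  ring

lemma semi_smul (i : ℕ) (c : 𝕜) (y : E) : semi h i (c • y) = ‖c‖ * semi h i y := by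
  unfold semi
  rw [mul_add, mul_add, Real.mul_iSup_of_nonneg (norm_nonneg _),
    Real.mul_iSup_of_nonneg (norm_nonneg _), coef_smul]
  congr 1
  · congr 1
    · simp
    · congr 1
      ext N
      rw [rowSum_smul, norm_smul]
  · congr 1
    ext n
    rw [sig_smul, norm_smul]

omit h in
lemma partialSum_continuous (x : ℕ → E) (j : ℕ) :
    Continuous (fun α : ℕ → 𝕜 => partialSum x α j) := by
  unfold partialSum
  exact continuous_finsetSum _ (fun i _ => (continuous_apply i).smul continuous_const)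

omit h in
lemma rowSum_continuous (T : ℕ → ℕ → 𝕜) (x : ℕ → E) (n N : ℕ) :
    Continuous (fun α : ℕ → 𝕜 => rowSum T x α n N) := by
  unfold rowSum
  exact continuous_finsetSum _ (fun j _ => (partialSum_continuous x j).const_smul _)

lemma coef_sub (y z : E) : coef h (y - z) = coef h y - coef h z := by
  have h1 := coef_add h y ((-1 : 𝕜) • z)
  rw [coef_smul] at h1
  simpa [sub_eq_add_neg] using h1

omit h in
lemma rowSum_sub (α β : ℕ → 𝕜) (n N : ℕ) :
    rowSum T x (α - β) n N = rowSum T x α n N - rowSum T x β n N := by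
  have h1 := rowSum_add (T := T) (x := x) α ((-1 : 𝕜) • β) n N
  rw [rowSum_smul] at h1
  simpa [sub_eq_add_neg] using h1

lemma sig_sub (y z : E) (n : ℕ) : sig h (y - z) n = sig h y n - sig h z n := by
  have h1 := sig_add h y ((-1 : 𝕜) • z) n
  rw [sig_smul] at h1
  simpa [sub_eq_add_neg] using h1

lemma semi_closed [CompleteSpace E] (u : ℕ → E) (y : E) (hu : Tendsto u atTop (𝓝 y))
    (hc : ∀ i, ∀ ε > 0, ∃ K, ∀ k ≥ K, ∀ l ≥ K, semi h i (u k - u l) ≤ ε) :
    ∀ i, Tendsto (fun k => semi h i (u k - y)) atTop (𝓝 0) := by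
  -- the limit coefficient sequence
  have hcoef : ∀ i, ∃ a, Tendsto (fun k => coef h (u k) i) atTop (𝓝 a) := by
    intro i
    refine cauchySeq_tendsto_of_complete ?_
    rw [Metric.cauchySeq_iff]
    intro ε hε
    obtain ⟨K, hK⟩ := hc i (ε / 2) (by linarith)
    refine ⟨K, fun k hk l hl => ?_⟩
    have := (coef_le_semi h i (u k - u l)).trans (hK k hk l hl)
    rw [coef_sub] at this
    rw [dist_eq_norm]
    simp only [Pi.sub_apply] at this
    linarith
  choose α hα using hcoef
  have hα' : Tendsto (fun k => coef h (u k)) atTop (𝓝 α) := tendsto_pi_nhds.mpr hα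
  have hrow : ∀ n N, Tendsto (fun k => rowSum T x (coef h (u k)) n N) atTop
      (𝓝 (rowSum T x α n N)) := fun n N => ((rowSum_continuous T x n N).tendsto α).comp hα'
  have hrowu : ∀ n, ∀ ε > 0, ∃ K, ∀ k ≥ K, ∀ N,
      ‖rowSum T x (coef h (u k)) n N - rowSum T x α n N‖ ≤ ε := by
    intro n ε hε
    obtain ⟨K, hK⟩ := hc n ε hε
    refine ⟨K, fun k hk N => ?_⟩
    have h1 : Tendsto (fun l => ‖rowSum T x (coef h (u k)) n N - rowSum T x (coef h (u l)) n N‖)
        atTop (𝓝 ‖rowSum T x (coef h (u k)) n N - rowSum T x α n N‖) :=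
      (tendsto_const_nhds.sub (hrow n N)).norm
    refine le_of_tendsto h1 (eventually_atTop.mpr ⟨K, fun l hl => ?_⟩)
    have h2 := (row_le_semi h n N (u k - u l)).trans (hK k hk l hl)
    rwa [coef_sub, rowSum_sub] at h2
  -- the limits of the rows
  have hsig : ∀ n, ∃ s, Tendsto (fun k => sig h (u k) n) atTop (𝓝 s) := by
    intro n
    refine cauchySeq_tendsto_of_complete ?_
    rw [Metric.cauchySeq_iff]
    intro ε hε
    obtain ⟨K, hK⟩ := hc 0 (ε / 2) (by linarith)
    refine ⟨K, fun k hk l hl => ?_⟩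
    have := (sig_le_semi h 0 n (u k - u l)).trans (hK k hk l hl)
    rw [sig_sub] at this
    rw [dist_eq_norm]
    linarith
  choose s hs using hsig
  have hsigu : ∀ ε > 0, ∃ K, ∀ k ≥ K, ∀ n, ‖sig h (u k) n - s n‖ ≤ ε := by
    intro ε hε
    obtain ⟨K, hK⟩ := hc 0 ε hε
    refine ⟨K, fun k hk n => ?_⟩
    have h1 : Tendsto (fun l => ‖sig h (u k) n - sig h (u l) n‖) atTop
        (𝓝 ‖sig h (u k) n - s n‖) := (tendsto_const_nhds.sub (hs n)).norm
    refine le_of_tendsto h1 (eventually_atTop.mpr ⟨K, fun l hl => ?_⟩)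
    have h2 := (sig_le_semi h 0 n (u k - u l)).trans (hK k hk l hl)
    rwa [sig_sub] at h2
  -- the limit sequence expands `y`
  have hexp : IsTExpansion T x α y := by
    refine ⟨s, fun n => ?_, ?_⟩
    · rw [Metric.tendsto_atTop]
      intro ε hε
      obtain ⟨K1, hK1⟩ := hrowu n (ε / 4) (by linarith)
      obtain ⟨K2, hK2⟩ := hsigu (ε / 4) (by linarith)
      set k := max K1 K2
      obtain ⟨N0, hN0⟩ := Metric.tendsto_atTop.mp (row_tendsto h (u k) n) (ε / 4) (by linarith)
      refine ⟨N0, fun N hN => ?_⟩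
      have a1 := hK1 k (le_max_left _ _) N
      have a2 := hK2 k (le_max_right _ _) n
      have a3 := hN0 N hN
      rw [dist_eq_norm] at a3 ⊢
      have e : rowSum T x α n N - s n = -(rowSum T x (coef h (u k)) n N - rowSum T x α n N) +
        (rowSum T x (coef h (u k)) n N - sig h (u k) n) + (sig h (u k) n - s n) := by abel
      change ‖rowSum T x α n N - s n‖ < ε
      rw [e]
      refine (norm_add₃_le).trans_lt ?_
      rw [norm_neg]
      linarith
    · rw [Metric.tendsto_atTop]
      intro ε hε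
      obtain ⟨K1, hK1⟩ := Metric.tendsto_atTop.mp hu (ε / 4) (by linarith)
      obtain ⟨K2, hK2⟩ := hsigu (ε / 4) (by linarith)
      set k := max K1 K2
      obtain ⟨N0, hN0⟩ := Metric.tendsto_atTop.mp (sig_tendsto h (u k)) (ε / 4) (by linarith)
      refine ⟨N0, fun n hn => ?_⟩
      have a1 := hK1 k (le_max_left _ _)
      have a2 := hK2 k (le_max_right _ _) n
      have a3 := hN0 n hn
      rw [dist_eq_norm] at a1 a3 ⊢
      have e : s n - y = -(sig h (u k) n - s n) + (sig h (u k) n - u k) + (u k - y) := by abel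
      rw [e]
      refine (norm_add₃_le).trans_lt ?_
      rw [norm_neg]
      linarith
  have hy : coef h y = α := coef_unique h hexp
  have hsy : ∀ n, sig h y n = s n := by
    intro n
    refine tendsto_nhds_unique (row_tendsto h y n) ?_
    obtain ⟨s', hs', hs''⟩ := hexp
    -- both limits of the same rows
    rw [hy]
    rw [Metric.tendsto_atTop]
    intro ε hε
    obtain ⟨K1, hK1⟩ := hrowu n (ε / 4) (by linarith)
    obtain ⟨K2, hK2⟩ := hsigu (ε / 4) (by linarith)
    set k := max K1 K2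
    obtain ⟨N0, hN0⟩ := Metric.tendsto_atTop.mp (row_tendsto h (u k) n) (ε / 4) (by linarith)
    refine ⟨N0, fun N hN => ?_⟩
    have a1 := hK1 k (le_max_left _ _) N
    have a2 := hK2 k (le_max_right _ _) n
    have a3 := hN0 N hN
    rw [dist_eq_norm] at a3 ⊢
    have e : rowSum T x α n N - s n = -(rowSum T x (coef h (u k)) n N - rowSum T x α n N) +
      (rowSum T x (coef h (u k)) n N - sig h (u k) n) + (sig h (u k) n - s n) := by abel
    rw [e]
    refine (norm_add₃_le).trans_lt ?_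
    rw [norm_neg]
    linarith
  intro i
  rw [Metric.tendsto_atTop]
  intro ε hε
  obtain ⟨K1, hK1⟩ := hrowu i (ε / 6) (by linarith)
  obtain ⟨K2, hK2⟩ := hsigu (ε / 6) (by linarith)
  obtain ⟨K3, hK3⟩ := Metric.tendsto_atTop.mp (hα i) (ε / 6) (by linarith)
  refine ⟨max K1 (max K2 K3), fun k hk => ?_⟩
  have b1 : K1 ≤ k := (le_max_left _ _).trans hk
  have b2 : K2 ≤ k := (le_max_left _ _).trans ((le_max_right _ _).trans hk)
  have b3 : K3 ≤ k := (le_max_right _ _).trans ((le_max_right _ _).trans hk)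
  have h1 := semi_le h i (u k - y) (ε / 6) (ε / 6) (ε / 6) (by
      rw [coef_sub, hy]
      have := hK3 k b3
      rw [dist_eq_norm] at this
      exact this.le)
    (fun N => by rw [coef_sub, hy, rowSum_sub]; exact hK1 k b1 N)
    (fun n => by rw [sig_sub, hsy]; exact hK2 k b2 n)
  rw [Real.dist_eq, sub_zero, abs_of_nonneg (semi_nonneg h i _)]
  linarith

lemma semi_bound [CompleteSpace E] (i : ℕ) : ∃ C : ℝ, ∀ y, semi h i y ≤ C * ‖y‖ :=
  seminorm_family_continuous (𝕜 := 𝕜) (semi h) (semi_nonneg h) (semi_add h) (semi_smul h)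
    (semi_closed h) i

variable [CompleteSpace E]

/-- The coefficient functionals as continuous functionals. -/
noncomputable def fc (i : ℕ) : E →L[𝕜] 𝕜 :=
  LinearMap.mkContinuousOfExistsBound
    { toFun := fun y => coef h y i
      map_add' := fun y z => by rw [coef_add]; rfl
      map_smul' := fun c y => by rw [coef_smul]; rfl }
    (by
      obtain ⟨C, hC⟩ := semi_bound h i
      exact ⟨C, fun y => (coef_le_semi h i y).trans (hC y)⟩)

lemma fc_apply (i : ℕ) (y : E) : fc h i y = coef h y i := rfl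

/-- Partial sum operators. -/
noncomputable def S (j : ℕ) : E →L[𝕜] E := ∑ i ∈ range (j + 1), (fc h i).smulRight (x i)

lemma S_apply (j : ℕ) (y : E) : S h j y = partialSum x (coef h y) j := by
  simp [S, partialSum, fc_apply]

/-- Partial sums of rows as operators. -/
noncomputable def P (n N : ℕ) : E →L[𝕜] E := ∑ j ∈ range N, T n j • S h j

lemma P_apply (n N : ℕ) (y : E) : P h n N y = rowSum T x (coef h y) n N := by
  simp [P, rowSum, S_apply]

lemma P_bound (n : ℕ) : ∃ C : ℝ, 0 ≤ C ∧ ∀ N, ‖P h n N‖ ≤ C := by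
  obtain ⟨C, hC⟩ := semi_bound h n
  refine ⟨max C 0, le_max_right _ _, fun N => ContinuousLinearMap.opNorm_le_bound _
    (le_max_right _ _) (fun y => ?_)⟩
  rw [P_apply]
  refine ((row_le_semi h n N y).trans (hC y)).trans ?_
  gcongr
  exact le_max_left _ _

/-- The row operators. -/
noncomputable def Sg (n : ℕ) : E →L[𝕜] E :=
  LinearMap.mkContinuousOfExistsBound
    { toFun := fun y => sig h y n
      map_add' := fun y z => sig_add h y z n
      map_smul' := fun c y => sig_smul h c y n }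
    (by
      obtain ⟨C, hC⟩ := semi_bound h 0
      exact ⟨C, fun y => (sig_le_semi h 0 n y).trans (hC y)⟩)

lemma Sg_apply (n : ℕ) (y : E) : Sg h n y = sig h y n := rfl

lemma Sg_bound : ∃ C : ℝ, 0 ≤ C ∧ ∀ n, ‖Sg h n‖ ≤ C := by
  obtain ⟨C, hC⟩ := semi_bound h 0
  refine ⟨max C 0, le_max_right _ _, fun n => ContinuousLinearMap.opNorm_le_bound _
    (le_max_right _ _) (fun y => ?_)⟩
  rw [Sg_apply]
  refine ((sig_le_semi h 0 n y).trans (hC y)).trans ?_
  gcongr
  exact le_max_left _ _

lemma fc_total (y : E) (hy : ∀ n, fc h n y = 0) : y = 0 := by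
  have h0 : coef h y = 0 := funext hy
  have hs : ∀ n, sig h y n = 0 := by
    intro n
    refine tendsto_nhds_unique (row_tendsto h y n) ?_
    rw [h0]
    simp [rowSum, partialSum]
  refine tendsto_nhds_unique (sig_tendsto h y) ?_
  have : sig h y = fun _ => 0 := funext hs
  rw [this]
  exact tendsto_const_nhds

omit [CompleteSpace E] in
lemma span_dense : Dense (Submodule.span 𝕜 (Set.range x) : Set E) := by
  intro y
  have h1 : ∀ n, sig h y n ∈ closure (Submodule.span 𝕜 (Set.range x) : Set E) := by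
    intro n
    refine mem_closure_of_tendsto (row_tendsto h y n) (Eventually.of_forall (fun N => ?_))
    refine Submodule.sum_mem _ (fun j _ => Submodule.smul_mem _ _ ?_)
    exact Submodule.sum_mem _ (fun i _ => Submodule.smul_mem _ _
      (Submodule.subset_span (Set.mem_range_self i)))
  have h2 := mem_closure_of_tendsto (sig_tendsto h y) (Eventually.of_forall h1)
  rwa [closure_closure] at h2

end basis

/-! ### Tail sums of a consistent matrix -/

section tails

/-- `tail T n j = ∑_{m ≥ j} t_{nm}`. -/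
noncomputable def tail (T : ℕ → ℕ → 𝕜) (n j : ℕ) : 𝕜 := ∑' m, T n (m + j)

variable {T : ℕ → ℕ → 𝕜} (hT : Consistent T)

include hT

lemma row_summable (n : ℕ) : Summable (fun m => T n m) := by
  obtain ⟨C, hC⟩ := hT.rows
  exact (hC n).1.of_norm

lemma tail_eq (n j : ℕ) : tail T n j = ∑' m, T n m - ∑ m ∈ range j, T n m := by
  rw [eq_sub_iff_add_eq, add_comm]
  exact (row_summable hT n).sum_add_tsum_nat_add j

lemma tail_sub (n j : ℕ) : tail T n j - tail T n (j + 1) = T n j := by
  rw [tail_eq hT, tail_eq hT, sum_range_succ]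
  ring

omit hT in
lemma tail_zero_lim (n : ℕ) : Tendsto (fun j => tail T n j) atTop (𝓝 0) :=
  tendsto_sum_nat_add (fun m => T n m)

lemma tail_one_lim (j : ℕ) : Tendsto (fun n => tail T n j) atTop (𝓝 1) := by
  have h1 : Tendsto (fun n => ∑' m, T n m - ∑ m ∈ range j, T n m) atTop
      (𝓝 (1 - ∑ m ∈ range j, (0 : 𝕜))) :=
    hT.sums.sub (tendsto_finsetSum _ (fun m _ => hT.cols m))
  simp only [sum_const_zero, sub_zero] at h1
  exact h1.congr (fun n => (tail_eq hT n j).symm)

omit hT in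
lemma tail_norm_le (C : ℝ) (hC : ∀ n, Summable (fun m => ‖T n m‖) ∧ ∑' m, ‖T n m‖ ≤ C)
    (n j : ℕ) : ‖tail T n j‖ ≤ C := by
  have h1 : Summable (fun m => ‖T n (m + j)‖) := (summable_nat_add_iff j).mpr (hC n).1
  refine (norm_tsum_le_tsum_norm h1).trans ?_
  have h2 := (hC n).1.sum_add_tsum_nat_add j
  have h3 : 0 ≤ ∑ m ∈ range j, ‖T n m‖ := sum_nonneg (fun _ _ => norm_nonneg _)
  linarith [(hC n).2]

lemma sum_Ico_tail (n i N : ℕ) (hiN : i ≤ N) :
    ∑ j ∈ Ico i N, T n j = tail T n i - tail T n N := by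
  induction N, hiN using Nat.le_induction with
  | base => simp
  | succ N hN ih =>
    rw [sum_Ico_succ_top hN, ih, ← tail_sub hT n N]
    ring

lemma sum_Ico_sq (n i N : ℕ) (hiN : i ≤ N) :
    ∑ j ∈ Ico i N, T n j * (tail T n j + tail T n (j + 1)) = tail T n i ^ 2 - tail T n N ^ 2 := by
  induction N, hiN using Nat.le_induction with
  | base => simp
  | succ N hN ih =>
    rw [sum_Ico_succ_top hN, ih, ← tail_sub hT n N]
    ring

end tails

section main

variable {T : ℕ → ℕ → 𝕜} {x : ℕ → E} (hT : Consistent T) (h : IsTBasis T x)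

include hT h

lemma coef_x (j : ℕ) : coef h (x j) = Pi.single j 1 := by
  have hps : ∀ l, partialSum x (Pi.single j (1 : 𝕜)) l = if j ≤ l then x j else 0 := by
    intro l
    unfold partialSum
    split_ifs with hjl
    · rw [sum_eq_single j]
      · simp
      · intro b _ hb
        simp [Pi.single_eq_of_ne hb]
      · intro hb
        exact absurd (mem_range.mpr (by omega)) hb
    · refine sum_eq_zero (fun i hi => ?_)
      have : i ≠ j := by
        have := mem_range.mp hi
        omega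
      simp [Pi.single_eq_of_ne this]
  refine coef_unique h ⟨fun n => tail T n j • x j, fun n => ?_, ?_⟩
  · have h1 : Tendsto (fun N => (tail T n j - tail T n N) • x j) atTop
        (𝓝 ((tail T n j - 0) • x j)) :=
      (tendsto_const_nhds.sub (tail_zero_lim n)).smul_const _
    rw [sub_zero] at h1
    refine h1.congr' ?_
    filter_upwards [eventually_ge_atTop j] with N hN
    rw [← sum_Ico_tail hT n j N hN, sum_smul, range_eq_Ico,
      ← sum_Ico_consecutive _ (Nat.zero_le j) hN]
    rw [sum_eq_zero (s := Ico 0 j), zero_add]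
    · refine sum_congr rfl (fun l hl => ?_)
      rw [hps, if_pos (mem_Ico.mp hl).1]
    · intro l hl
      rw [hps, if_neg (by have := (mem_Ico.mp hl).2; omega), smul_zero]
  · have h1 := (tail_one_lim hT j).smul_const (x j)
    rwa [one_smul] at h1

variable [CompleteSpace E]

lemma fc_x (i j : ℕ) : fc h i (x j) = if i = j then 1 else 0 := by
  rw [fc_apply, coef_x hT h j, Pi.single_apply]

lemma fc_S (i j : ℕ) (y : E) : fc h i (S h j y) = if i ≤ j then fc h i y else 0 := by
  have h1 : S h j y = ∑ l ∈ range (j + 1), fc h l y • x l := by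
    rw [S_apply]; rfl
  rw [h1, map_sum]
  simp only [map_smul, fc_x hT h, smul_eq_mul, mul_ite, mul_one, mul_zero]
  rw [sum_ite_eq]
  simp only [mem_range, Nat.lt_succ_iff]

/-- Finite combinations of partial sum operators act diagonally. -/
lemma fc_comb (a : ℕ → 𝕜) (i N : ℕ) (y : E) :
    fc h i ((∑ j ∈ range N, a j • S h j) y) = (∑ j ∈ Ico i N, a j) * fc h i y := by
  rw [_root_.sum_apply, map_sum]
  simp only [smul_apply, map_smul, fc_S hT h, smul_eq_mul, mul_ite, mul_zero]
  rw [sum_mul, ← sum_filter]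
  refine sum_congr ?_ (fun _ _ => rfl)
  ext j
  simp only [mem_filter, mem_range, mem_Ico]
  tauto

lemma fc_Sg (i n : ℕ) (y : E) : fc h i (Sg h n y) = tail T n i * fc h i y := by
  have h1 : Tendsto (fun N => fc h i (P h n N y)) atTop (𝓝 (fc h i (Sg h n y))) := by
    refine ((fc h i).continuous.tendsto _).comp ?_
    have := row_tendsto h y n
    rw [Sg_apply]
    exact this.congr (fun N => (P_apply h n N y).symm)
  have h2 : Tendsto (fun N => (tail T n i - tail T n N) * fc h i y) atTop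
      (𝓝 ((tail T n i - 0) * fc h i y)) :=
    (tendsto_const_nhds.sub (tail_zero_lim n)).mul_const _
  rw [sub_zero] at h2
  refine tendsto_nhds_unique h1 (h2.congr' ?_)
  filter_upwards [eventually_ge_atTop i] with N hN
  rw [P, fc_comb hT h, sum_Ico_tail hT n i N hN]

/-- The truncated squares of the row operators. -/
noncomputable def A (n N : ℕ) : E →L[𝕜] E :=
  ∑ j ∈ range N, (T n j * (tail T n j + tail T n (j + 1))) • S h j

lemma A_eq (n N : ℕ) : A h n N = (∑ j ∈ range N, (T n j + T n (j + 1)) • P h n (j + 1)) +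
    (tail T n N + tail T n (N + 1)) • P h n N := by
  induction N with
  | zero => simp [A, P]
  | succ N ih =>
    have e1 : A h n (N + 1) = A h n N +
        (T n N * (tail T n N + tail T n (N + 1))) • S h N := by
      simp [A, sum_range_succ]
    have e2 : P h n (N + 1) = P h n N + T n N • S h N := by
      simp [P, sum_range_succ]
    rw [e1, ih, sum_range_succ, e2, ← tail_sub hT n N, ← tail_sub hT n (N + 1)]
    module

lemma A_tendsto (n : ℕ) : ∃ B : E →L[𝕜] E, Tendsto (fun N => A h n N) atTop (𝓝 B) := by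
  obtain ⟨C, hC0, hC⟩ := P_bound h n
  obtain ⟨D, hD⟩ := hT.rows
  have hs : Summable (fun j => (T n j + T n (j + 1)) • P h n (j + 1)) := by
    have hs1 : Summable (fun j => (‖T n j‖ + ‖T n (j + 1)‖) * C) :=
      ((hD n).1.add ((summable_nat_add_iff 1).mpr (hD n).1)).mul_right C
    refine Summable.of_norm_bounded hs1 (fun j => ?_)
    rw [norm_smul]
    gcongr
    · exact norm_add_le _ _
    · exact hC _
  have h1 := hs.hasSum.tendsto_sum_nat
  have h2 : Tendsto (fun N => (tail T n N + tail T n (N + 1)) • P h n N) atTop (𝓝 0) := by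
    have h3 : Tendsto (fun N => ‖tail T n N + tail T n (N + 1)‖ * C) atTop (𝓝 (‖(0 : 𝕜) + 0‖ * C)) :=
      ((tail_zero_lim n).add ((tendsto_add_atTop_iff_nat 1).mpr (tail_zero_lim n))).norm.mul_const C
    simp only [add_zero, norm_zero, zero_mul] at h3
    refine squeeze_zero_norm (fun N => ?_) h3
    rw [norm_smul]
    gcongr
    exact hC N
  refine ⟨_, (h1.add h2).congr (fun N => (A_eq hT h n N).symm)⟩

lemma A_tendsto_sq (n : ℕ) :
    Tendsto (fun N => A h n N) atTop (𝓝 ((Sg h n).comp (Sg h n))) := by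
  obtain ⟨B, hB⟩ := A_tendsto hT h n
  have e : B = (Sg h n).comp (Sg h n) := by
    ext y
    rw [← sub_eq_zero]
    refine fc_total h _ (fun i => ?_)
    rw [map_sub, sub_eq_zero, ContinuousLinearMap.comp_apply, fc_Sg hT h, fc_Sg hT h]
    have h1 : Tendsto (fun N => fc h i (A h n N y)) atTop (𝓝 (fc h i (B y))) :=
      ((fc h i).continuous.tendsto _).comp
        (((ContinuousLinearMap.apply 𝕜 E y).continuous.tendsto B).comp hB)
    have h2 : Tendsto (fun N => (tail T n i ^ 2 - tail T n N ^ 2) * fc h i y) atTop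
        (𝓝 ((tail T n i ^ 2 - 0 ^ 2) * fc h i y)) :=
      (tendsto_const_nhds.sub ((tail_zero_lim n).pow 2)).mul_const _
    have h3 := tendsto_nhds_unique h1 (h2.congr' (by
      filter_upwards [eventually_ge_atTop i] with N hN
      rw [A, fc_comb hT h, sum_Ico_sq hT n i N hN]))
    rw [h3]
    ring
  rwa [e] at hB

end main

/-- **Every `T`-basis is a γ-basis.**  Let `T` be a consistent matrix and let `(x_n)` be a
`T`-basis of the Banach space `E`.  Then there are continuous functionals `(f_n)` such that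
`(x_n), (f_n)` is an M-basis, and a row-finite matrix `lam` with respect to which it is a
γ-basis. -/
theorem result {𝕜 : Type*} [RCLike 𝕜] {E : Type*} [NormedAddCommGroup E] [NormedSpace 𝕜 E]
    [CompleteSpace E] (T : ℕ → ℕ → 𝕜) (hT : Consistent T) (x : ℕ → E) (hx : IsTBasis T x) :
    ∃ (f : ℕ → (E →L[𝕜] 𝕜)) (lam : ℕ → ℕ → 𝕜), (∀ n, ∃ N, ∀ i ≥ N, lam n i = 0) ∧
      IsGammaBasisWith lam x f := by
  have hN : ∀ n : ℕ, ∃ N, ‖A hx n N - (Sg hx n).comp (Sg hx n)‖ < 1 / ((n : ℝ) + 1) := by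
    intro n
    obtain ⟨N, hN⟩ := (Metric.tendsto_atTop.mp (A_tendsto_sq hT hx n)) (1 / ((n : ℝ) + 1))
      (by positivity)
    exact ⟨N, by simpa [dist_eq_norm] using hN N le_rfl⟩
  choose N hN using hN
  set lam : ℕ → ℕ → 𝕜 := fun n i =>
    ∑ j ∈ Ico i (N n), T n j * (tail T n j + tail T n (j + 1)) with hlam
  have hfA : ∀ n i y, fc hx i (A hx n (N n) y) = lam n i * fc hx i y := fun n i y => by
    rw [A, fc_comb hT hx]
  obtain ⟨M, hM0, hM⟩ := Sg_bound hx
  -- strong convergence
  have hstrong : ∀ y, Tendsto (fun n => A hx n (N n) y) atTop (𝓝 y) := by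
    intro y
    have h1 : Tendsto (fun n => Sg hx n y - y) atTop (𝓝 0) := by
      have := (sig_tendsto hx y).sub_const y
      simpa [Sg_apply] using this
    have h2 : Tendsto (fun n => Sg hx n (Sg hx n y - y)) atTop (𝓝 0) := by
      have h3 : Tendsto (fun n => M * ‖Sg hx n y - y‖) atTop (𝓝 (M * 0)) := by
        have := h1.norm
        rw [norm_zero] at this
        exact this.const_mul M
      rw [mul_zero] at h3
      refine squeeze_zero_norm (fun n => ?_) h3
      exact (Sg hx n).le_of_opNorm_le (hM n) _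
    have h4 : Tendsto (fun n => (A hx n (N n) - (Sg hx n).comp (Sg hx n)) y) atTop (𝓝 0) := by
      have h5 : Tendsto (fun n : ℕ => 1 / ((n : ℝ) + 1) * ‖y‖) atTop (𝓝 (0 * ‖y‖)) :=
        tendsto_one_div_add_atTop_nhds_zero_nat.mul_const _
      rw [zero_mul] at h5
      refine squeeze_zero_norm (fun n => ?_) h5
      exact ContinuousLinearMap.le_of_opNorm_le _ (hN n).le _
    have h6 := ((h4.add h2).add h1).add_const y
    simp only [zero_add, add_zero] at h6
    refine h6.congr (fun n => ?_)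
    simp only [sub_apply, ContinuousLinearMap.comp_apply, map_sub]
    abel
  refine ⟨fc hx, lam, fun n => ⟨N n, fun i hi => ?_⟩, ?_⟩
  · rw [hlam]
    simp only
    rw [Ico_eq_empty (by omega), sum_empty]
  refine ⟨⟨fc_x hT hx, span_dense hx, fc_total hx⟩, ?_, ?_, ?_⟩
  · intro i
    have h1 : Tendsto (fun n => fc hx i (A hx n (N n) (x i))) atTop (𝓝 (fc hx i (x i))) :=
      ((fc hx i).continuous.tendsto _).comp (hstrong (x i))
    simp only [hfA, fc_x hT hx, if_true, mul_one] at h1
    exact h1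
  · obtain ⟨C, hC⟩ := hT.rows
    refine ⟨C * (2 * C), fun n => ?_⟩
    have hC0 : 0 ≤ C := (norm_nonneg _).trans (tail_norm_le C hC 0 0)
    have hb : ∀ i, ‖lam n i - lam n (i + 1)‖ ≤ ‖T n i‖ * (2 * C) := by
      intro i
      rcases lt_or_ge i (N n) with hi | hi
      · have e : lam n i - lam n (i + 1) = T n i * (tail T n i + tail T n (i + 1)) := by
          rw [hlam]
          simp only
          rw [← add_sum_Ioo_eq_sum_Ico hi]
          have : Ioo i (N n) = Ico (i + 1) (N n) := by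
            ext j; simp only [mem_Ioo, mem_Ico]; omega
          rw [this]
          ring
        rw [e, norm_mul]
        gcongr
        refine (norm_add_le _ _).trans ?_
        have := tail_norm_le C hC n i
        have := tail_norm_le C hC n (i + 1)
        linarith
      · have e : lam n i - lam n (i + 1) = 0 := by
          rw [hlam]
          simp only
          rw [Ico_eq_empty (by omega), Ico_eq_empty (by omega)]
          simp
        rw [e, norm_zero]
        positivity
    have hs : Summable (fun i => ‖T n i‖ * (2 * C)) := (hC n).1.mul_right _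
    have hs' : Summable (fun i => ‖lam n i - lam n (i + 1)‖) :=
      Summable.of_nonneg_of_le (fun _ => norm_nonneg _) hb hs
    refine ⟨hs', ?_⟩
    calc ∑' i, ‖lam n i - lam n (i + 1)‖ ≤ ∑' i, ‖T n i‖ * (2 * C) := hs'.tsum_le_tsum hb hs
      _ = (∑' i, ‖T n i‖) * (2 * C) := tsum_mul_right
      _ ≤ C * (2 * C) := by
        gcongr
        exact (hC n).2
  · intro y
    refine ⟨fun n => A hx n (N n) y, fun n => ?_, hstrong y⟩
    refine tendsto_const_nhds.congr' ?_
    filter_upwards [eventually_ge_atTop (N n)] with K hK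
    rw [← sub_eq_zero]
    refine fc_total hx _ (fun i => ?_)
    rw [map_sub, sub_eq_zero, hfA, map_sum]
    simp only [map_smul, fc_x hT hx, smul_eq_mul, mul_ite, mul_one, mul_zero]
    rw [sum_ite_eq]
    split_ifs with hi
    · rfl
    · have : lam n i = 0 := by
        rw [hlam]
        simp only
        rw [Ico_eq_empty (by rw [mem_range] at hi; omega), sum_empty]
      rw [this, zero_mul]

end Pool.Agent.Results.MP_abdce6_an.TBasisIsGammaBasis
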